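import Pool.Agent.H10.KAL.RIM
import Pool.Agent.H32.Dense.EntX

/-!
# The squared distance to the reference time (P5, call 2)

`sq X t s = floor ((t - s) ^ 2 / 2 ^ X)` is the real time of the second call. If the time `t` is
almost full given a context which knows `s`, so is `sq X t s`.
-/

set_option autoImplicit false

namespace Pool.P5

open Finset Real
open Pool.Agent.H49.Ent Pool.Agent.H32.Dense Pool.STK

/-- The squared time. -/
def sq (X : ℕ) (t s : ℤ) : ℤ := (t - s) ^ 2 / 2 ^ X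

theorem sq_r {X : ℕ} {t s : ℤ} (ht : 0 ≤ t ∧ t < 2 ^ X) (hs : 0 ≤ s ∧ s < 2 ^ X) :
    0 ≤ sq X t s ∧ sq X t s < 2 ^ X := by
  have h0 : (0 : ℤ) < 2 ^ X := by positivity
  constructor
  · exact Int.ediv_nonneg (sq_nonneg _) h0.le
  · refine Int.ediv_lt_of_lt_mul h0 ?_
    have h1 : |t - s| < 2 ^ X := abs_lt.2 ⟨by linarith [hs.2, ht.1], by linarith [ht.2, hs.1]⟩
    have h2 : (t - s) ^ 2 = |t - s| * |t - s| := by rw [← sq_abs, pow_two]
    rw [h2]
    exact mul_lt_mul'' h1 h1 (abs_nonneg _) (abs_nonneg _)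

theorem sq_near (X : ℕ) (t s : ℤ) :
    |(sq X t s : ℝ) - ((t : ℝ) - s) ^ 2 / 2 ^ X| ≤ 1 := by
  have h0 : (0 : ℤ) < 2 ^ X := by positivity
  have h0' : (0 : ℝ) < 2 ^ X := by positivity
  have h1 := Int.mul_ediv_add_emod ((t - s) ^ 2) (2 ^ X)
  have h2 := Int.emod_nonneg ((t - s) ^ 2) h0.ne'
  have h3 := Int.emod_lt_of_pos ((t - s) ^ 2) h0
  have e1 : ((t : ℝ) - s) ^ 2 = 2 ^ X * (sq X t s : ℝ) + (((t - s) ^ 2 % 2 ^ X : ℤ) : ℝ) := by
    unfold sq
    exact_mod_cast h1.symm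
  have h2' : (0 : ℝ) ≤ (((t - s) ^ 2 % 2 ^ X : ℤ) : ℝ) := by exact_mod_cast h2
  have h3' : (((t - s) ^ 2 % 2 ^ X : ℤ) : ℝ) ≤ 2 ^ X := by
    exact_mod_cast h3.le
  rw [e1, add_div, mul_div_cancel_left₀ _ h0'.ne', sub_add_eq_sub_sub, sub_self, zero_sub, abs_neg,
    abs_of_nonneg (div_nonneg h2' h0'.le)]
  exact (div_le_one h0').2 h3'

/-- Two times with the same squared time. -/
theorem sq_fib {X : ℕ} {t t0 s : ℤ} (h0 : t0 ≠ s) (h : sq X t s = sq X t0 s) :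
    |(|t - s| - |t0 - s|)| ≤ 2 ^ X / |t0 - s| := by
  have hM : (0 : ℤ) < 2 ^ X := by positivity
  have ha : 0 < |t0 - s| := abs_pos.2 (sub_ne_zero.2 h0)
  rw [Int.le_ediv_iff_mul_le ha]
  have h1 := Int.mul_ediv_add_emod ((t - s) ^ 2) (2 ^ X)
  have h2 := Int.emod_nonneg ((t - s) ^ 2) hM.ne'
  have h3 := Int.emod_lt_of_pos ((t - s) ^ 2) hM
  have h4 := Int.mul_ediv_add_emod ((t0 - s) ^ 2) (2 ^ X)
  have h5 := Int.emod_nonneg ((t0 - s) ^ 2) hM.ne'
  have h6 := Int.emod_lt_of_pos ((t0 - s) ^ 2) hM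
  unfold sq at h
  rw [h] at h1
  have h7 : |(t - s) ^ 2 - (t0 - s) ^ 2| < 2 ^ X := by
    rw [abs_lt]
    constructor <;> linarith
  have h8 : (t - s) ^ 2 - (t0 - s) ^ 2 = (|t - s| - |t0 - s|) * (|t - s| + |t0 - s|) := by
    rw [← sq_abs (t - s), ← sq_abs (t0 - s)]
    ring
  rw [h8, abs_mul] at h7
  have h9 : |(|t - s| - |t0 - s|)| * |t0 - s| ≤
      |(|t - s| - |t0 - s|)| * |(|t - s| + |t0 - s|)| := by
    refine mul_le_mul_of_nonneg_left ?_ (abs_nonneg _)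
    have e : |(|t - s| + |t0 - s|)| = |t - s| + |t0 - s| :=
      abs_of_nonneg (add_nonneg (abs_nonneg _) (abs_nonneg _))
    rw [e]
    linarith [abs_nonneg (t - s)]
  exact h9.trans h7.le

/-- The number of times with the same squared time. -/
theorem sq_card {X : ℕ} {t0 s : ℤ} (ht : 0 ≤ t0 ∧ t0 < 2 ^ X) (hs : 0 ≤ s ∧ s < 2 ^ X) :
    (((Ico (0 : ℤ) (2 ^ X)).filter fun t => sq X t s = sq X t0 s).card : ℝ) + 1 ≤
      11 * 2 ^ X / ((|t0 - s| : ℤ) + 1 : ℝ) := by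
  have hM : (0 : ℤ) < 2 ^ X := by positivity
  have hM' : (0 : ℝ) < 2 ^ X := by positivity
  have hM1 : (1 : ℝ) ≤ 2 ^ X := one_le_pow₀ (by norm_num)
  by_cases h0 : t0 = s
  · have h1 : ((Ico (0 : ℤ) (2 ^ X)).filter fun t => sq X t s = sq X t0 s).card ≤ 2 ^ X := by
      refine (Finset.card_filter_le _ _).trans ?_
      simp
    have h2 : (((Ico (0 : ℤ) (2 ^ X)).filter fun t => sq X t s = sq X t0 s).card : ℝ) ≤ 2 ^ X := by
      exact_mod_cast h1
    rw [h0] at h2 ⊢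
    simp only [sub_self, abs_zero, Int.cast_zero, zero_add, div_one]
    linarith
  · set a : ℤ := |t0 - s| with ha
    have ha0 : 0 < a := abs_pos.2 (sub_ne_zero.2 h0)
    have haM : a < 2 ^ X := abs_lt.2 ⟨by linarith [hs.2, ht.1], by linarith [ht.2, hs.1]⟩
    set R : ℤ := 2 ^ X / a with hR
    have hR0 : 0 ≤ R := Int.ediv_nonneg hM.le ha0.le
    have hsub : ((Ico (0 : ℤ) (2 ^ X)).filter fun t => sq X t s = sq X t0 s) ⊆
        Icc (s + (a - R)) (s + (a + R)) ∪ Icc (s - (a + R)) (s - (a - R)) := by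
      intro t ht'
      have h1 := sq_fib h0 (Finset.mem_filter.1 ht').2
      rw [← ha, ← hR, abs_le] at h1
      rw [Finset.mem_union, Finset.mem_Icc, Finset.mem_Icc]
      rcases abs_cases (t - s) with h2 | h2
      · left
        constructor <;> linarith [h2.1]
      · right
        constructor <;> linarith [h2.1]
    have h1 := (Finset.card_le_card hsub).trans (Finset.card_union_le _ _)
    rw [Int.card_Icc, Int.card_Icc] at h1
    have e1 : (s + (a + R) + 1 - (s + (a - R))).toNat = (2 * R + 1).toNat := by congr 1; ring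
    have e2 : (s - (a - R) + 1 - (s - (a + R))).toNat = (2 * R + 1).toNat := by congr 1; ring
    rw [e1, e2] at h1
    have h3 : (((Ico (0 : ℤ) (2 ^ X)).filter fun t => sq X t s = sq X t0 s).card : ℤ) ≤
        2 * (2 * R + 1) := by
      have h4 : (((2 * R + 1).toNat : ℕ) : ℤ) = 2 * R + 1 := Int.toNat_of_nonneg (by linarith)
      have h5 : (((Ico (0 : ℤ) (2 ^ X)).filter fun t => sq X t s = sq X t0 s).card : ℤ) ≤
          (((2 * R + 1).toNat + (2 * R + 1).toNat : ℕ) : ℤ) := by exact_mod_cast h1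
      rw [Nat.cast_add, h4] at h5
      linarith
    have h4 : (((Ico (0 : ℤ) (2 ^ X)).filter fun t => sq X t s = sq X t0 s).card : ℝ) ≤
        2 * (2 * (R : ℝ) + 1) := by exact_mod_cast h3
    have ha1 : (1 : ℝ) ≤ a := by exact_mod_cast ha0
    have haM1 : (a : ℝ) + 1 ≤ 2 ^ X := by exact_mod_cast haM
    have h5 : (R : ℝ) ≤ 2 ^ X / a := by
      rw [le_div_iff₀ (by linarith)]
      have := Int.ediv_mul_le (2 ^ X) ha0.ne'
      exact_mod_cast this
    have h6 : (2 : ℝ) ^ X / a ≤ 2 * 2 ^ X / (a + 1) := by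
      rw [div_le_div_iff₀ (by linarith) (by linarith)]
      nlinarith
    have h7 : 1 ≤ (2 : ℝ) ^ X / (a + 1) := by
      rw [le_div_iff₀ (by linarith)]
      linarith
    have e3 : 11 * (2 : ℝ) ^ X / (a + 1) = 11 * (2 ^ X / (a + 1)) := by ring
    have e4 : 2 * (2 : ℝ) ^ X / (a + 1) = 2 * (2 ^ X / (a + 1)) := by ring
    rw [e3]
    rw [e4] at h6
    linarith

theorem sum_rsqrt (N : ℕ) : ∑ j ∈ range N, 1 / Real.sqrt ((j : ℝ) + 1) ≤ 2 * Real.sqrt N := by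
  induction N with
  | zero => simp
  | succ N ih =>
    rw [Finset.sum_range_succ, Nat.cast_succ]
    have h1 : (0 : ℝ) < Real.sqrt ((N : ℝ) + 1) := Real.sqrt_pos.2 (by positivity)
    have h2 : Real.sqrt (N : ℝ) ≤ Real.sqrt ((N : ℝ) + 1) := Real.sqrt_le_sqrt (by linarith)
    have h3 : Real.sqrt ((N : ℝ) + 1) ^ 2 = N + 1 := Real.sq_sqrt (by positivity)
    have h4 : Real.sqrt (N : ℝ) ^ 2 = N := Real.sq_sqrt (by positivity)
    have h5 : 1 / Real.sqrt ((N : ℝ) + 1) ≤ 2 * (Real.sqrt ((N : ℝ) + 1) - Real.sqrt N) := by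
      rw [div_le_iff₀ h1]
      nlinarith [Real.sqrt_nonneg (N : ℝ)]
    linarith

theorem sum_rsqrt_abs {M : ℕ} {s : ℤ} (hs : 0 ≤ s ∧ s < M) :
    ∑ t ∈ Ico (0 : ℤ) M, 1 / Real.sqrt ((|t - s| : ℤ) + 1 : ℝ) ≤ 4 * Real.sqrt M := by
  classical
  have h1 := Finset.sum_filter_add_sum_filter_not (Ico (0 : ℤ) M) (fun t => s ≤ t)
    (fun t => 1 / Real.sqrt ((|t - s| : ℤ) + 1 : ℝ))
  have h2 : ∀ (A : Finset ℤ), A ⊆ Ico (0 : ℤ) M → Set.InjOn (fun t => (t - s).natAbs) A →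
      ∑ t ∈ A, 1 / Real.sqrt ((|t - s| : ℤ) + 1 : ℝ) ≤ 2 * Real.sqrt M := by
    intro A hA hi
    have h3 : ∑ t ∈ A, 1 / Real.sqrt ((|t - s| : ℤ) + 1 : ℝ) =
        ∑ j ∈ A.image (fun t => (t - s).natAbs), 1 / Real.sqrt ((j : ℝ) + 1) := by
      rw [Finset.sum_image hi]
      refine Finset.sum_congr rfl fun t _ => ?_
      rw [Int.abs_eq_natAbs, Int.cast_natCast]
    rw [h3]
    refine le_trans (Finset.sum_le_sum_of_subset_of_nonneg ?_ fun _ _ _ => by positivity)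
      (sum_rsqrt M)
    intro j hj
    obtain ⟨t, ht, rfl⟩ := Finset.mem_image.1 hj
    have h4 := Finset.mem_Ico.1 (hA ht)
    rw [Finset.mem_range]
    have : |t - s| < M := abs_lt.2 ⟨by linarith [hs.2], by linarith [hs.1]⟩
    rw [Int.abs_eq_natAbs] at this
    exact_mod_cast this
  have h3 := h2 ((Ico (0 : ℤ) M).filter fun t => s ≤ t) (Finset.filter_subset _ _) (by
    intro t ht t' ht' e
    have a1 := (Finset.mem_filter.1 ht).2
    have a2 := (Finset.mem_filter.1 ht').2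
    simp only at e
    omega)
  have h4 := h2 ((Ico (0 : ℤ) M).filter fun t => ¬ s ≤ t) (Finset.filter_subset _ _) (by
    intro t ht t' ht' e
    have a1 := (Finset.mem_filter.1 ht).2
    have a2 := (Finset.mem_filter.1 ht').2
    simp only at e
    omega)
  linarith

variable {Ω S : Type} [Fintype Ω] {p : Ω → ℝ}

/-- The distance to the reference time. -/
theorem log_dist (hp : IsLaw p) {X : ℕ} {t : Ω → ℤ} {c : Ω → S} {s : S → ℤ} {d : ℝ}
    (ht : ∀ ω, 0 ≤ t ω ∧ t ω < 2 ^ X) (hs : ∀ ω, 0 ≤ s (c ω) ∧ s (c ω) < 2 ^ X)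
    (hf : X * Real.log 2 - d ≤ CH p t c) :
    X * Real.log 2 - 2 * d - 2 * Real.log 4 ≤
      ∑ ω, p ω * Real.log ((|t ω - s (c ω)| : ℤ) + 1 : ℝ) := by
  have hM : ((2 ^ X : ℕ) : ℤ) = 2 ^ X := by push_cast; rfl
  have h1 := Pool.Agent.H10.KAL.gibbs_cond hp t c (Ico (0 : ℤ) (2 ^ X))
    (fun ω => Finset.mem_Ico.2 (ht ω)) (fun v t => 1 / Real.sqrt ((|t - s v| : ℤ) + 1 : ℝ))
    (fun v t _ => by
      have : (0 : ℝ) ≤ ((|t - s v| : ℤ) : ℝ) := by exact_mod_cast abs_nonneg _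
      positivity)
  have h2 : ∀ ω, Real.log (1 / Real.sqrt ((|t ω - s (c ω)| : ℤ) + 1 : ℝ)) =
      -(1 / 2) * Real.log ((|t ω - s (c ω)| : ℤ) + 1 : ℝ) := fun ω => by
    have : (0 : ℝ) ≤ ((|t ω - s (c ω)| : ℤ) : ℝ) := by exact_mod_cast abs_nonneg _
    rw [one_div, Real.log_inv, Real.log_sqrt (by positivity)]
    ring
  have h3 : ∀ ω, Real.log (∑ t ∈ Ico (0 : ℤ) (2 ^ X),
      1 / Real.sqrt ((|t - s (c ω)| : ℤ) + 1 : ℝ)) ≤ Real.log 4 + X / 2 * Real.log 2 := fun ω => by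
    have h4 := sum_rsqrt_abs (M := 2 ^ X) (s := s (c ω)) (by rw [hM]; exact hs ω)
    rw [hM] at h4
    have h5 : (0 : ℝ) < ∑ t ∈ Ico (0 : ℤ) (2 ^ X), 1 / Real.sqrt ((|t - s (c ω)| : ℤ) + 1 : ℝ) := by
      refine Finset.sum_pos (fun t _ => ?_) ⟨t ω, Finset.mem_Ico.2 (ht ω)⟩
      have : (0 : ℝ) ≤ ((|t - s (c ω)| : ℤ) : ℝ) := by exact_mod_cast abs_nonneg _
      positivity
    refine (Real.log_le_log h5 h4).trans (le_of_eq ?_)
    rw [Real.log_mul (by norm_num) (by positivity), Real.log_sqrt (by positivity)]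
    push_cast
    rw [Real.log_pow]
    ring
  have h4 : ∑ ω, p ω * Real.log (∑ t ∈ Ico (0 : ℤ) (2 ^ X),
      1 / Real.sqrt ((|t - s (c ω)| : ℤ) + 1 : ℝ)) ≤ Real.log 4 + X / 2 * Real.log 2 := by
    refine (Finset.sum_le_sum fun ω _ => mul_le_mul_of_nonneg_left (h3 ω) (hp.nonneg ω)).trans ?_
    rw [← Finset.sum_mul, hp.sum_one, one_mul]
  simp only [h2] at h1
  have h5 : ∑ ω, p ω * (-(1 / 2) * Real.log ((|t ω - s (c ω)| : ℤ) + 1 : ℝ)) =
      -(1 / 2) * ∑ ω, p ω * Real.log ((|t ω - s (c ω)| : ℤ) + 1 : ℝ) := by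
    rw [Finset.mul_sum]
    exact Finset.sum_congr rfl fun ω _ => by ring
  rw [h5] at h1
  linarith

/-- **The squared time is full.** -/
theorem sq_full (hp : IsLaw p) {X : ℕ} {t : Ω → ℤ} {c : Ω → S} {s : S → ℤ} {d : ℝ}
    (ht : ∀ ω, 0 ≤ t ω ∧ t ω < 2 ^ X) (hs : ∀ ω, 0 ≤ s (c ω) ∧ s (c ω) < 2 ^ X)
    (hf : X * Real.log 2 - d ≤ CH p t c) :
    X * Real.log 2 - 3 * d - 6 ≤ CH p (fun ω => sq X (t ω) (s (c ω))) c := by
  have h0 := log_dist hp ht hs hf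
  have hM : (0 : ℝ) < 2 ^ X := by positivity
  have h1 := Pool.Agent.H10.KAL.gibbs_cond hp t (fun ω => (sq X (t ω) (s (c ω)), c ω))
    (Ico (0 : ℤ) (2 ^ X)) (fun ω => Finset.mem_Ico.2 (ht ω))
    (fun v t => if sq X t (s v.2) = v.1 then 1 else 1 / 2 ^ X) (fun v t _ => by
      split_ifs <;> positivity)
  simp only [if_true, Real.log_one, mul_zero, Finset.sum_const_zero, add_zero] at h1
  have h2 : ∀ ω, Real.log (∑ t' ∈ Ico (0 : ℤ) (2 ^ X), if sq X t' (s (c ω)) =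
      sq X (t ω) (s (c ω)) then (1 : ℝ) else 1 / 2 ^ X) ≤
      Real.log 11 + X * Real.log 2 - Real.log ((|t ω - s (c ω)| : ℤ) + 1 : ℝ) := fun ω => by
    have hpos : (0 : ℝ) < ((|t ω - s (c ω)| : ℤ) : ℝ) + 1 := by
      have : (0 : ℝ) ≤ ((|t ω - s (c ω)| : ℤ) : ℝ) := by exact_mod_cast abs_nonneg _
      linarith
    have h3 : ∑ t' ∈ Ico (0 : ℤ) (2 ^ X), (if sq X t' (s (c ω)) =
        sq X (t ω) (s (c ω)) then (1 : ℝ) else 1 / 2 ^ X) ≤
        (((Ico (0 : ℤ) (2 ^ X)).filter fun t' => sq X t' (s (c ω)) =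
          sq X (t ω) (s (c ω))).card : ℝ) + 1 := by
      rw [Finset.sum_ite, Finset.sum_const, Finset.sum_const, nsmul_eq_mul, nsmul_eq_mul, mul_one]
      have h4 : (((Ico (0 : ℤ) (2 ^ X)).filter fun t' => ¬ sq X t' (s (c ω)) =
          sq X (t ω) (s (c ω))).card : ℝ) ≤ 2 ^ X := by
        have : ((Ico (0 : ℤ) (2 ^ X)).filter fun t' => ¬ sq X t' (s (c ω)) =
          sq X (t ω) (s (c ω))).card ≤ 2 ^ X := by
          refine (Finset.card_filter_le _ _).trans ?_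
          simp
        exact_mod_cast this
      have h5 : (((Ico (0 : ℤ) (2 ^ X)).filter fun t' => ¬ sq X t' (s (c ω)) =
          sq X (t ω) (s (c ω))).card : ℝ) * (1 / 2 ^ X) ≤ 1 := by
        rw [mul_one_div, div_le_one hM]
        exact h4
      linarith
    have h4 := h3.trans (sq_card (ht ω) (hs ω))
    have h5 : (0 : ℝ) < ∑ t' ∈ Ico (0 : ℤ) (2 ^ X), (if sq X t' (s (c ω)) =
        sq X (t ω) (s (c ω)) then (1 : ℝ) else 1 / 2 ^ X) := by
      refine Finset.sum_pos (fun t _ => by split_ifs <;> positivity)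
        ⟨t ω, Finset.mem_Ico.2 (ht ω)⟩
    refine (Real.log_le_log h5 h4).trans (le_of_eq ?_)
    rw [Real.log_div (by positivity) hpos.ne', Real.log_mul (by norm_num) hM.ne', Real.log_pow]
  have h3 : ∑ ω, p ω * Real.log (∑ t' ∈ Ico (0 : ℤ) (2 ^ X), if sq X t' (s (c ω)) =
      sq X (t ω) (s (c ω)) then (1 : ℝ) else 1 / 2 ^ X) ≤ Real.log 11 + X * Real.log 2 -
      ∑ ω, p ω * Real.log ((|t ω - s (c ω)| : ℤ) + 1 : ℝ) := by
    refine (Finset.sum_le_sum fun ω _ => mul_le_mul_of_nonneg_left (h2 ω) (hp.nonneg ω)).trans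
      (le_of_eq ?_)
    simp only [mul_sub]
    rw [Finset.sum_sub_distrib, ← Finset.sum_mul, hp.sum_one, one_mul]
  have h4 := CH_le_add hp.nonneg t (fun ω => sq X (t ω) (s (c ω))) c
  have h5 : Real.log 11 + 2 * Real.log 4 ≤ 6 := by
    have e1 : Real.log 11 + 2 * Real.log 4 = Real.log 176 := by
      rw [show (176 : ℝ) = 11 * 4 ^ 2 by norm_num, Real.log_mul (by norm_num) (by norm_num),
        Real.log_pow]
      push_cast
      ring
    rw [e1, Real.log_le_iff_le_exp (by norm_num)]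
    have e2 := Real.exp_one_gt_d9
    have e3 : Real.exp 6 = Real.exp 1 ^ 6 := by rw [← Real.exp_nat_mul]; norm_num
    rw [e3]
    calc (176 : ℝ) ≤ 2.7182818283 ^ 6 := by norm_num
      _ ≤ Real.exp 1 ^ 6 := pow_le_pow_left₀ (by norm_num) e2.le 6
  linarith

end Pool.P5
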