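import Pool.Agent.H64.QUAD.Top
import Pool.Agent.H64.QUAD.Asm
import Pool.Agent.H48.P5.Sq

/-!
# Two squared times are usually far apart (P5, call 2)
-/

set_option autoImplicit false

namespace Pool.P5

open Finset Real
open Pool.Agent.H49.Ent Pool.Agent.H32.Dense Pool.STK Pool.SLO
open Pool.BFL (Pb)
open Pool.QUAD70 (pb_marg)
open Pool.QT64 (Pb_mono Pb_le3)

/-- If the squares are close, then the times are close or symmetric. -/
theorem sq_close {t t' s a b : ℝ} (hb : 0 ≤ b) (h : |(t - s) ^ 2 - (t' - s) ^ 2| ≤ a)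
    (hab : a ≤ b ^ 2) : |t - t'| ≤ b ∨ |t + t' - 2 * s| ≤ b := by
  by_contra hc
  push Not at hc
  have h1 : (t - s) ^ 2 - (t' - s) ^ 2 = (t - t') * (t + t' - 2 * s) := by ring
  rw [h1, abs_mul] at h
  have h2 : b * b < |t - t'| * |t + t' - 2 * s| := mul_lt_mul'' hc.1 hc.2 hb hb
  nlinarith

variable {Ω Λ : Type} [Fintype Ω] {p : Ω → ℝ}

theorem sum_cons {n : ℕ} (f : (Fin (n + 1) → Ω) → ℝ) :
    ∑ v : Fin (n + 1) → Ω, f v = ∑ x : Ω, ∑ u : Fin n → Ω, f (Fin.cons x u) := by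
  rw [← Fintype.sum_prod_type' (fun x (u : Fin n → Ω) => f (Fin.cons x u))]
  exact (Equiv.sum_comp (Fin.consEquiv fun _ : Fin (n + 1) => Ω) f).symm

open Classical in
/-- One line. -/
theorem mid_one {q : Ω → ℝ} (hq : ∀ ω, 0 ≤ q ω) (h1 : ∑ ω, q ω = 1) (x : Ω → ℝ) (b : ℝ) :
    ∑ v : Fin 3 → Ω, (if |x (v 1) + x (v 2) - 2 * x (v 0)| ≤ b then ∏ j, q (v j) else 0) ≤
      Real.sqrt (∑ v : Fin 2 → Ω, if |x (v 0) - x (v 1)| ≤ 2 * b then ∏ j, q (v j) else 0) := by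
  set Q := ∑ v : Fin 2 → Ω, (if |x (v 0) - x (v 1)| ≤ 2 * b then ∏ j, q (v j) else 0) with hQ
  have hQ2 : Q = ∑ ω, ∑ ω', if |x ω - x ω'| ≤ 2 * b then q ω * q ω' else 0 := by
    rw [hQ, sum_cons]
    refine Finset.sum_congr rfl fun ω _ => ?_
    rw [sum_cons]
    refine Finset.sum_congr rfl fun ω' _ => ?_
    rw [Fintype.sum_unique]
    simp only [Fin.prod_univ_two]
    rfl
  -- one interval
  have h2 : ∀ m : ℝ, ∑ ω, (if |x ω - m| ≤ b then q ω else 0) ≤ Real.sqrt Q := by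
    intro m
    refine Real.le_sqrt_of_sq_le ?_
    rw [hQ2, pow_two, Finset.sum_mul_sum]
    refine Finset.sum_le_sum fun ω _ => Finset.sum_le_sum fun ω' _ => ?_
    by_cases h3 : |x ω - m| ≤ b
    · by_cases h4 : |x ω' - m| ≤ b
      · rw [if_pos h3, if_pos h4, if_pos]
        have e : x ω - x ω' = (x ω - m) - (x ω' - m) := by ring
        rw [e]
        exact (abs_sub _ _).trans (by linarith)
      · rw [if_neg h4, mul_zero]
        split_ifs
        exacts [mul_nonneg (hq _) (hq _), le_rfl]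
    · rw [if_neg h3, zero_mul]
      split_ifs
      exacts [mul_nonneg (hq _) (hq _), le_rfl]
  have h3 : ∑ v : Fin 3 → Ω, (if |x (v 1) + x (v 2) - 2 * x (v 0)| ≤ b then ∏ j, q (v j) else 0) =
      ∑ ω, ∑ ω₁, ∑ ω₂, if |x ω₁ + x ω₂ - 2 * x ω| ≤ b then q ω * (q ω₁ * q ω₂) else 0 := by
    rw [sum_cons]
    refine Finset.sum_congr rfl fun ω _ => ?_
    rw [sum_cons]
    refine Finset.sum_congr rfl fun ω₁ _ => ?_
    rw [sum_cons]
    refine Finset.sum_congr rfl fun ω₂ _ => ?_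
    rw [Fintype.sum_unique]
    simp only [Fin.prod_univ_succ, Fin.prod_univ_zero, mul_one]
    rfl
  rw [h3]
  have h4 : ∀ ω ω₁ : Ω, ∑ ω₂, (if |x ω₁ + x ω₂ - 2 * x ω| ≤ b then q ω * (q ω₁ * q ω₂) else 0) ≤
      (q ω * q ω₁) * Real.sqrt Q := by
    intro ω ω₁
    have e : ∀ ω₂, (if |x ω₁ + x ω₂ - 2 * x ω| ≤ b then q ω * (q ω₁ * q ω₂) else 0) =
        (q ω * q ω₁) * (if |x ω₂ - (2 * x ω - x ω₁)| ≤ b then q ω₂ else 0) := fun ω₂ => by
      have e' : x ω₁ + x ω₂ - 2 * x ω = x ω₂ - (2 * x ω - x ω₁) := by ring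
      rw [e']
      split_ifs
      · ring
      · rw [mul_zero]
    simp only [e]
    rw [← Finset.mul_sum]
    exact mul_le_mul_of_nonneg_left (h2 _) (mul_nonneg (hq _) (hq _))
  calc ∑ ω, ∑ ω₁, ∑ ω₂, (if |x ω₁ + x ω₂ - 2 * x ω| ≤ b then q ω * (q ω₁ * q ω₂) else 0) ≤
      ∑ ω, ∑ ω₁, (q ω * q ω₁) * Real.sqrt Q :=
        Finset.sum_le_sum fun ω _ => Finset.sum_le_sum fun ω₁ _ => h4 ω ω₁
    _ = Real.sqrt Q := by
        simp only [← Finset.sum_mul, ← Finset.mul_sum]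
        rw [h1]
        ring

/-- **The midpoint of two times is usually far from a third time.** -/
theorem mid_all (hp : IsLaw p) (L : Ω → Λ) (x : Ω → ℝ) (b : ℝ) :
    Pb (tup p L 2) (fun w => |x (w 1) + x (w 2) - 2 * x (w 0)| ≤ b) ≤
      Real.sqrt (Pb (tup p L 1) (fun w => |x (w 0) - x (w 1)| ≤ 2 * b)) := by
  classical
  have hp0 := hp.nonneg
  set I := Finset.univ.image L with hI
  set Q : Λ → ℝ := fun z => ∑ v : Fin 2 → Ω, if |x (v 0) - x (v 1)| ≤ 2 * b then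
    ∏ j, cond p L z (v j) else 0 with hQ
  have e1 : Pb (tup p L 2) (fun w => |x (w 1) + x (w 2) - 2 * x (w 0)| ≤ b) =
      ∑ z ∈ I, law p L z * ∑ v : Fin 3 → Ω, (if |x (v 1) + x (v 2) - 2 * x (v 0)| ≤ b then
        ∏ j, cond p L z (v j) else 0) := by
    unfold Pb
    simp only [tup_mix hp0, Finset.mul_sum]
    rw [Finset.sum_comm]
    refine Finset.sum_congr rfl fun v _ => ?_
    split_ifs
    · rfl
    · simp
  have e2 : Pb (tup p L 1) (fun w => |x (w 0) - x (w 1)| ≤ 2 * b) = ∑ z ∈ I, law p L z * Q z := by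
    unfold Pb
    simp only [tup_mix hp0, hQ, Finset.mul_sum]
    rw [Finset.sum_comm]
    refine Finset.sum_congr rfl fun v _ => ?_
    split_ifs
    · rfl
    · simp
  have h1 : ∑ z ∈ I, law p L z = 1 := by
    rw [← hp.sum_one]
    exact sum_law p L
  have h2 : ∀ z ∈ I, law p L z * ∑ v : Fin 3 → Ω, (if |x (v 1) + x (v 2) - 2 * x (v 0)| ≤ b then
        ∏ j, cond p L z (v j) else 0) ≤ law p L z * Real.sqrt (Q z) := by
    intro z hz
    rcases (law_nonneg hp0 L z).eq_or_lt with h0 | h0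
    · rw [← h0, zero_mul, zero_mul]
    · refine mul_le_mul_of_nonneg_left (mid_one (fun ω => cond_nonneg hp0 L z ω) ?_ x b) h0.le
      exact sum_cond p L h0.ne'
  have h3 : ∀ z, 0 ≤ Q z := fun z => Finset.sum_nonneg fun v _ => by
    split_ifs
    exacts [Finset.prod_nonneg fun _ _ => cond_nonneg hp0 L _ _, le_rfl]
  rw [e1, e2]
  refine (Finset.sum_le_sum h2).trans (Real.le_sqrt_of_sq_le ?_)
  -- Jensen
  have h5 : (∑ z ∈ I, law p L z * Real.sqrt (Q z)) ^ 2 ≤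
      (∑ z ∈ I, law p L z) * ∑ z ∈ I, law p L z * Q z := by
    have := Finset.sum_mul_sq_le_sq_mul_sq I (fun z => Real.sqrt (law p L z))
      (fun z => Real.sqrt (law p L z) * Real.sqrt (Q z))
    have a1 : ∀ z ∈ I, Real.sqrt (law p L z) * (Real.sqrt (law p L z) * Real.sqrt (Q z)) =
        law p L z * Real.sqrt (Q z) := fun z _ => by
      rw [← mul_assoc, Real.mul_self_sqrt (law_nonneg hp0 L z)]
    have a2 : ∀ z ∈ I, Real.sqrt (law p L z) ^ 2 = law p L z := fun z _ =>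
      Real.sq_sqrt (law_nonneg hp0 L z)
    have a3 : ∀ z ∈ I, (Real.sqrt (law p L z) * Real.sqrt (Q z)) ^ 2 = law p L z * Q z :=
      fun z _ => by rw [mul_pow, Real.sq_sqrt (law_nonneg hp0 L z), Real.sq_sqrt (h3 z)]
    rwa [Finset.sum_congr rfl a1, Finset.sum_congr rfl a2, Finset.sum_congr rfl a3] at this
  rwa [h1, one_mul] at h5

/-- **Two squared times are usually far apart.** -/
theorem tm2 (hp : IsLaw p) (L : Ω → Λ) (tau : Ω → ℤ) {X : ℕ} {s η : ℝ} (hs : 0 ≤ s)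
    (hX : 16 ≤ s ^ 2 * 2 ^ X)
    (h1 : Pb (tup p L 1) (fun w => |((tau (w 0) - tau (w 1) : ℤ) : ℝ)| ≤ s * 2 ^ X) ≤ η) :
    Pb (tup p L 2) (fun w => |((sq X (tau (w 1)) (tau (w 0)) - sq X (tau (w 2)) (tau (w 0)) : ℤ) :
      ℝ)| ≤ s ^ 2 / 8 * 2 ^ X) ≤ η + Real.sqrt η := by
  classical
  have hM : (0 : ℝ) < 2 ^ X := by positivity
  have hq := fun w => tup_nonneg hp.nonneg L 2 w
  have h2 : Pb (tup p L 2) (fun w => |(tau (w 1) : ℝ) + tau (w 2) - 2 * tau (w 0)| ≤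
      s / 2 * 2 ^ X) ≤ Real.sqrt η := by
    refine (mid_all hp L (fun ω => (tau ω : ℝ)) (s / 2 * 2 ^ X)).trans (Real.sqrt_le_sqrt ?_)
    refine le_trans (le_of_eq ?_) h1
    congr 1
    funext w
    rw [show 2 * (s / 2 * (2 : ℝ) ^ X) = s * 2 ^ X by ring]
    push_cast
    rfl
  have h3 : Pb (tup p L 2) (fun w => |(tau (w 1) : ℝ) - tau (w 2)| ≤ s / 2 * 2 ^ X) ≤ η := by
    have h4 : Marg (tup p L 2) (tup p L 1) (fun v => v ∘ ![(1 : Fin 3), 2]) :=
      tup_sub hp.nonneg L ![(1 : Fin 3), 2] (by decide)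
    have h5 := pb_marg h4 (fun w : Fin 2 → Ω => |(tau (w 0) : ℝ) - tau (w 1)| ≤
      s / 2 * 2 ^ X)
    refine le_trans (le_of_eq h5) (le_trans (Pb_mono (fun w => tup_nonneg hp.nonneg L 1 w)
      fun w _ hw => ?_) h1)
    push_cast
    refine hw.trans ?_
    nlinarith
  have h4 := Pb_le3 (q := tup p L 2) hq (A := fun w => |((sq X (tau (w 1)) (tau (w 0)) -
      sq X (tau (w 2)) (tau (w 0)) : ℤ) : ℝ)| ≤ s ^ 2 / 8 * 2 ^ X)
    (B₁ := fun w => |(tau (w 1) : ℝ) - tau (w 2)| ≤ s / 2 * 2 ^ X)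
    (B₂ := fun w => |(tau (w 1) : ℝ) + tau (w 2) - 2 * tau (w 0)| ≤ s / 2 * 2 ^ X)
    (G := fun _ => False) (fun w _ hw => by
      have a1 := sq_near X (tau (w 1)) (tau (w 0))
      have a2 := sq_near X (tau (w 2)) (tau (w 0))
      push_cast at hw
      rw [abs_le] at a1 a2 hw
      have a3 : |((tau (w 1) : ℝ) - tau (w 0)) ^ 2 - ((tau (w 2) : ℝ) - tau (w 0)) ^ 2| ≤
          (s ^ 2 / 8 * 2 ^ X + 2) * 2 ^ X := by
        have e : ((tau (w 1) : ℝ) - tau (w 0)) ^ 2 - ((tau (w 2) : ℝ) - tau (w 0)) ^ 2 =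
            (((tau (w 1) : ℝ) - tau (w 0)) ^ 2 / 2 ^ X -
              ((tau (w 2) : ℝ) - tau (w 0)) ^ 2 / 2 ^ X) * 2 ^ X := by
          field_simp
        rw [e, abs_mul, abs_of_pos hM]
        refine mul_le_mul_of_nonneg_right ?_ hM.le
        rw [abs_le]
        constructor <;> linarith [hw.1, hw.2, a1.1, a1.2, a2.1, a2.2]
      rcases sq_close (b := s / 2 * 2 ^ X) (by positivity) a3 (by nlinarith) with h | h
      · exact Or.inl h
      · exact Or.inr (Or.inl h))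
  refine h4.trans ?_
  have h5 : Pb (tup p L 2) (fun _ => False) = 0 := by
    unfold Pb
    simp
  linarith

end Pool.P5

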