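import Mathlib

/-!
# The algebra of the second call of P5 (K_TIEN, (2.1)-(2.3), degree 2)

Times `T`, `Ts` (the reference time) are real numbers, `K` is the set of the static slow coordinates
(positions `y`), `A` the set of the moving slow coordinates (positions `l + t m`), one coordinate of
the group has the path `x + t be + t ^ 2 be2`. `a`, `cc` are the own slopes at `T`; `cs`, `El`, `Ev`
are those at `Ts`; `e1` is the interpolated velocity of the slope over `A`, so that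
`ch t = cs + (t - Ts) e1`.
-/

set_option autoImplicit false

namespace Pool.P5

open Finset

variable {ι κ : Type*} (A : Finset ι) (K : Finset κ)

/-- **The interpolated height**: the exact formula. `la` is the leaf of the moving coordinates at the
reference time, `w` the own velocity leaf of the coordinate of the group. -/
theorem hat_eq (T Ts x be be2 : ℝ) (a y Ev : κ → ℝ) (l m cs e1 : ι → ℝ) (El : ι → κ → ℝ) :
    x + T * be + T ^ 2 * be2 - ∑ i ∈ A, (cs i + (T - Ts) * e1 i) * (l i + T * m i) -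
        ∑ u ∈ K, a u * y u =
      x + (T - Ts) ^ 2 * (be2 - ∑ i ∈ A, e1 i * m i) -
        ∑ u ∈ K, (a u + ∑ i ∈ A, (cs i + (T - Ts) * e1 i) * El i u - (T - Ts) * Ev u) * y u +
        ((T - Ts) * (be + 2 * Ts * be2 - ∑ i ∈ A, cs i * m i - ∑ u ∈ K, Ev u * y u) -
          ∑ i ∈ A, (cs i + (T - Ts) * e1 i) * (l i + Ts * m i - ∑ u ∈ K, El i u * y u)) +
        (Ts * be + Ts ^ 2 * be2) := by
  have h1 : ∑ u ∈ K, (a u + ∑ i ∈ A, (cs i + (T - Ts) * e1 i) * El i u - (T - Ts) * Ev u) * y u =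
      ∑ u ∈ K, a u * y u + ∑ i ∈ A, (cs i + (T - Ts) * e1 i) * ∑ u ∈ K, El i u * y u -
        (T - Ts) * ∑ u ∈ K, Ev u * y u := by
    have h2 : ∑ i ∈ A, (cs i + (T - Ts) * e1 i) * ∑ u ∈ K, El i u * y u =
        ∑ u ∈ K, (∑ i ∈ A, (cs i + (T - Ts) * e1 i) * El i u) * y u := by
      simp only [Finset.mul_sum, Finset.sum_mul]
      rw [Finset.sum_comm]
      refine Finset.sum_congr rfl fun u _ => Finset.sum_congr rfl fun i _ => by ring
    rw [h2, Finset.mul_sum, ← Finset.sum_add_distrib, ← Finset.sum_sub_distrib]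
    refine Finset.sum_congr rfl fun u _ => by ring
  have h3 : ∑ i ∈ A, (cs i + (T - Ts) * e1 i) * (l i + T * m i) =
      ∑ i ∈ A, (cs i + (T - Ts) * e1 i) * (l i + Ts * m i - ∑ u ∈ K, El i u * y u) +
        ∑ i ∈ A, (cs i + (T - Ts) * e1 i) * ∑ u ∈ K, El i u * y u +
        (T - Ts) * ∑ i ∈ A, cs i * m i + (T - Ts) ^ 2 * ∑ i ∈ A, e1 i * m i := by
    rw [Finset.mul_sum, Finset.mul_sum, ← Finset.sum_add_distrib, ← Finset.sum_add_distrib,
      ← Finset.sum_add_distrib]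
    refine Finset.sum_congr rfl fun i _ => by ring
  rw [h1, h3]
  ring

/-- **`g_eq` of the second call.** `g` is the height (minus `x`) at `T`, `la` and `w` are the digits
of the leaf and of the velocity leaf at the reference time. The last sum on the left is the body
error: `(slope - interpolated slope) * position`. -/
theorem hat_apx {C G T Ts g be be2 a0 w ow : ℝ} {a y Ev : κ → ℝ} {l m cs cc e1 la ol : ι → ℝ}
    {El : ι → κ → ℝ}
    (hg : |g - (T * be + T ^ 2 * be2 - ∑ u ∈ K, a u * y u - ∑ i ∈ A, cc i * (l i + T * m i) +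
      a0)| ≤ C)
    (hl : ∀ i ∈ A, |la i - (l i + Ts * m i - ∑ u ∈ K, El i u * y u + ol i)| ≤ C)
    (hw : |w - (be + 2 * Ts * be2 - ∑ u ∈ K, Ev u * y u - ∑ i ∈ A, cs i * m i + ow)| ≤ C)
    (hT : |T - Ts| ≤ 1) (hG : ∀ i ∈ A, |cs i + (T - Ts) * e1 i| ≤ G) :
    |g - ∑ i ∈ A, (cs i + (T - Ts) * e1 i - cc i) * (l i + T * m i) -
      ((T - Ts) ^ 2 * (be2 - ∑ i ∈ A, e1 i * m i) -
        ∑ u ∈ K, (a u + ∑ i ∈ A, (cs i + (T - Ts) * e1 i) * El i u - (T - Ts) * Ev u) * y u +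
        (a0 + (T - Ts) * (w - ow) - ∑ i ∈ A, (cs i + (T - Ts) * e1 i) * (la i - ol i)) +
        (Ts * be + Ts ^ 2 * be2))| ≤ C * (2 + A.card * G) := by
  have hC : 0 ≤ C := (abs_nonneg _).trans hg
  have e := hat_eq A K T Ts 0 be be2 a y Ev l m cs e1 El
  set c1 : ι → ℝ := fun i => cs i + (T - Ts) * e1 i with hc1
  set d1 : ι → ℝ := fun i => la i - (l i + Ts * m i - ∑ u ∈ K, El i u * y u + ol i) with hd1
  set d2 : ℝ := w - (be + 2 * Ts * be2 - ∑ u ∈ K, Ev u * y u - ∑ i ∈ A, cs i * m i + ow) with hd2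
  set d3 : ℝ := g - (T * be + T ^ 2 * be2 - ∑ u ∈ K, a u * y u -
    ∑ i ∈ A, cc i * (l i + T * m i) + a0) with hd3
  have s1 : ∑ i ∈ A, (c1 i - cc i) * (l i + T * m i) =
      ∑ i ∈ A, c1 i * (l i + T * m i) - ∑ i ∈ A, cc i * (l i + T * m i) := by
    rw [← Finset.sum_sub_distrib]
    exact Finset.sum_congr rfl fun i _ => by ring
  have s2 : ∑ i ∈ A, c1 i * (la i - ol i) = ∑ i ∈ A, c1 i * d1 i +
      ∑ i ∈ A, c1 i * (l i + Ts * m i - ∑ u ∈ K, El i u * y u) := by
    rw [← Finset.sum_add_distrib]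
    exact Finset.sum_congr rfl fun i _ => by rw [hd1]; ring
  have key : g - ∑ i ∈ A, (c1 i - cc i) * (l i + T * m i) -
      ((T - Ts) ^ 2 * (be2 - ∑ i ∈ A, e1 i * m i) -
        ∑ u ∈ K, (a u + ∑ i ∈ A, c1 i * El i u - (T - Ts) * Ev u) * y u +
        (a0 + (T - Ts) * (w - ow) - ∑ i ∈ A, c1 i * (la i - ol i)) +
        (Ts * be + Ts ^ 2 * be2)) = d3 - (T - Ts) * d2 + ∑ i ∈ A, c1 i * d1 i := by
    rw [s1, s2]
    have e2 : ∑ i ∈ A, c1 i * (l i + T * m i) = T * be + T ^ 2 * be2 - ∑ u ∈ K, a u * y u -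
        ((T - Ts) ^ 2 * (be2 - ∑ i ∈ A, e1 i * m i) -
          ∑ u ∈ K, (a u + ∑ i ∈ A, c1 i * El i u - (T - Ts) * Ev u) * y u +
          ((T - Ts) * (be + 2 * Ts * be2 - ∑ i ∈ A, cs i * m i - ∑ u ∈ K, Ev u * y u) -
            ∑ i ∈ A, c1 i * (l i + Ts * m i - ∑ u ∈ K, El i u * y u)) +
          (Ts * be + Ts ^ 2 * be2)) := by
      have := e
      simp only [hc1]
      linarith
    rw [e2, hd3, hd2]
    ring
  rw [key]
  have b1 : |(T - Ts) * d2| ≤ C := by
    rw [abs_mul]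
    calc |T - Ts| * |d2| ≤ 1 * C := mul_le_mul hT hw (abs_nonneg _) zero_le_one
      _ = C := one_mul C
  have b2 : |∑ i ∈ A, c1 i * d1 i| ≤ A.card * (G * C) := by
    refine (Finset.abs_sum_le_sum_abs _ _).trans ?_
    have := Finset.sum_le_card_nsmul A (fun i => |c1 i * d1 i|) (G * C) fun i hi => by
      rw [abs_mul]
      exact mul_le_mul (hG i hi) (hl i hi) (abs_nonneg _) ((abs_nonneg _).trans (hG i hi))
    simpa [nsmul_eq_mul] using this
  have b3 : |d3| ≤ C := hg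
  calc |d3 - (T - Ts) * d2 + ∑ i ∈ A, c1 i * d1 i| ≤
      |d3 - (T - Ts) * d2| + |∑ i ∈ A, c1 i * d1 i| := abs_add_le _ _
    _ ≤ |d3| + |(T - Ts) * d2| + |∑ i ∈ A, c1 i * d1 i| := by
      have := abs_sub d3 ((T - Ts) * d2)
      linarith
    _ ≤ C * (2 + A.card * G) := by
      have : A.card * (G * C) = C * (A.card * G) := by ring
      rw [mul_add]
      linarith

end Pool.P5
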