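import Pool.Agent.H64.POT.Ok

/-!
# The error of the interpolated slope is a multiple of a three-point vector (P5, call 2)
-/

set_option autoImplicit false

namespace Pool.P5

open Pool.QT64 (d3)

variable {c k : ℕ}

/-- `t1` is the second reference time, `t2` the first one; the error at `t0`. -/
theorem d3_ratio {T : Type} {tau : T → ℤ} (E : T → Fin k → Fin c → ℝ) {X : ℕ} {s : ℝ}
    (hs : 0 < s) {t0 t1 t2 : T} (h0 : 0 ≤ tau t0 ∧ tau t0 < 2 ^ X)
    (h2 : 0 ≤ tau t2 ∧ tau t2 < 2 ^ X)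
    (h : s * 2 ^ X ≤ |((tau t1 - tau t2 : ℤ) : ℝ)|) :
    ∃ rho : ℝ, (|rho| ≤ 1 ∧ ∀ u i, E t2 u i + ((tau t0 : ℝ) - tau t2) / (tau t1 - tau t2) *
        (E t1 u i - E t2 u i) - E t0 u i = rho * d3 tau E u t0 t1 t2 i) ∨
      (|rho| ≤ 1 / s ∧ ∀ u i, E t2 u i + ((tau t0 : ℝ) - tau t2) / (tau t1 - tau t2) *
        (E t1 u i - E t2 u i) - E t0 u i = rho * d3 tau E u t1 t0 t2 i) := by
  have hM : (0 : ℝ) < 2 ^ X := by positivity
  have hb : 0 < |((tau t1 - tau t2 : ℤ) : ℝ)| := lt_of_lt_of_le (by positivity) h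
  have hne : ((tau t1 : ℝ) - tau t2) ≠ 0 := by
    intro e
    rw [Int.cast_sub, e, abs_zero] at hb
    exact lt_irrefl _ hb
  have hne' : tau t1 ≠ tau t2 := fun e => hne (by rw [e, sub_self])
  by_cases hc : |tau t0 - tau t2| ≤ |tau t1 - tau t2|
  · refine ⟨-1, Or.inl ⟨by norm_num, fun u i => ?_⟩⟩
    unfold d3
    rw [if_pos ⟨hne', hc⟩]
    ring
  · push Not at hc
    have hne0 : tau t0 ≠ tau t2 := by
      intro e
      rw [e, sub_self, abs_zero] at hc
      exact absurd hc (not_lt.2 (abs_nonneg _))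
    have hne0' : ((tau t0 : ℝ) - tau t2) ≠ 0 := by
      intro e
      exact hne0 (by exact_mod_cast sub_eq_zero.1 e)
    refine ⟨((tau t0 : ℝ) - tau t2) / (tau t1 - tau t2), Or.inr ⟨?_, fun u i => ?_⟩⟩
    · rw [abs_div, div_le_div_iff₀ (abs_pos.2 hne) hs, one_mul]
      have h3 : |tau t0 - tau t2| < 2 ^ X :=
        abs_lt.2 ⟨by linarith [h0.1, h2.2], by linarith [h0.2, h2.1]⟩
      have h4 : |(tau t0 : ℝ) - tau t2| ≤ 2 ^ X := by exact_mod_cast h3.le
      have h5 : s * 2 ^ X ≤ |(tau t1 : ℝ) - tau t2| := by exact_mod_cast h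
      nlinarith
    · unfold d3
      rw [if_pos ⟨hne0, hc.le⟩]
      field_simp
      ring

end Pool.P5
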