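import Pool.Agent.H64.P5.Def
import Pool.Agent.H12.P5.Stm
import Pool.Agent.H66.P4.Pic

/-!
# P5: the class as a `TQ` record, geometric fields
-/

set_option autoImplicit false

namespace Pool.P5

open Finset Real MvPolynomial
open Pool.Agent.H49.Ent Pool.Agent.H32.Dense Pool.STK Pool.STAT Pool.MIC.Frm Pool.MIC7 Pool.FRM
open Pool.GSD
open Pool.BFL (Pb)
open Pool.TQ64 (TQ)
open Pool.P4 (t0 rt pp PthC FraC bb ze zt z0 be cl1 dg dgp Ry cb LLC tq GoodS FrP err GnL NewLabT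
  NBT NFc dg_bd dgp_bd tq_lt div_bd cl1_bd)

section

variable {c k0 k1 : ℕ}

/-- **The class as a record.** -/
noncomputable def tq5 (D : NDat2) (J w z i j r X : ℕ) (C : ℝ) (P : D.Γ × D.Γ → ℕ → PN)
    (S : Slo D) (ys : Fin (k0 + k1) → ℕ) (gs : Fin c → ℕ) (q : D.Ω → ℝ) (E : D.Ω → Prop) :
    TQ c k0 k1 where
  Ω := D.Ω
  iΩ := D.fin
  B := (D.Γ × D.Γ) × ℕ
  Vt := VT D.Γ c k0 k1
  Tt := TT D.Γ c k0 k1 × Prop
  p := q
  b := cb D J w i j r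
  nu := nuv D J w z i j r X C P gs
  v := vv D J w z i j r X C P ys gs
  th := fun ω => (tv D J w z i j r X C S ys gs ω, E ω)
  tm := fun t => (tq J w X t.1.2.1 : ℤ)
  a := fun t u i => (t.1.2.2.1 i (Fin.castAdd k1 u) : ℝ) / 2 ^ X
  cc := fun t r i => (t.1.2.2.1 i (Fin.natAdd k0 r) : ℝ) / 2 ^ X
  El := fun t r u => (t.1.2.2.2.1 r u : ℝ) / 2 ^ X
  Ev := fun t u i => (t.1.2.2.2.2 i u : ℝ) / 2 ^ X
  y := fun v u => v.2.1 (Fin.castAdd k1 u)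
  l0 := fun v r => v.2.1 (Fin.natAdd k0 r)
  m := fun v => v.2.2.1
  b1 := fun v => v.2.2.2.1
  b2 := fun v => v.2.2.2.2
  g := fun t v i => ⌊hR J w X t.1 v i⌋
  a0 := fun t i => ∑ a, (t.1.2.2.1 i a : ℝ) / 2

variable (D : NDat2) (J w z i j r X : ℕ) (C : ℝ) (P : D.Γ × D.Γ → ℕ → PN)
    (S : Slo D) (ys : Fin (k0 + k1) → ℕ) (gs : Fin c → ℕ) (q : D.Ω → ℝ) (E : D.Ω → Prop)

/-- The height formula. -/
theorem tq5_gf (t : TT D.Γ c k0 k1 × Prop) (v : VT D.Γ c k0 k1) (u : Fin c) :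
    (tq5 D J w z i j r X C P S ys gs q E).gf X t v u = hR J w X t.1 v u := by
  have hX : (2 : ℝ) ^ X ≠ 0 := by positivity
  unfold TQ.gf hR
  change ((tq J w X t.1.2.1 : ℤ) / 2 ^ X : ℝ) * v.2.2.2.1 u +
    ((tq J w X t.1.2.1 : ℤ) / 2 ^ X : ℝ) ^ 2 * v.2.2.2.2 u -
    ∑ a : Fin k0, (t.1.2.2.1 u (Fin.castAdd k1 a) : ℝ) / 2 ^ X * v.2.1 (Fin.castAdd k1 a) -
    ∑ l : Fin k1, (t.1.2.2.1 u (Fin.natAdd k0 l) : ℝ) / 2 ^ X *
      ((v.2.1 (Fin.natAdd k0 l) : ℝ) + ((tq J w X t.1.2.1 : ℤ) / 2 ^ X : ℝ) * v.2.2.1 l) +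
    ∑ a, (t.1.2.2.1 u a : ℝ) / 2 = _
  rw [Fin.sum_univ_add (fun a => (t.1.2.2.1 u a : ℝ) / 2 ^ X * (v.2.1 a : ℝ))]
  simp only [mul_add, Finset.sum_add_distrib, Int.cast_natCast]
  have e : ∑ l : Fin k1, (t.1.2.2.1 u (Fin.natAdd k0 l) : ℝ) / 2 ^ X *
      (((tq J w X t.1.2.1 : ℕ) : ℝ) / 2 ^ X * v.2.2.1 l) =
      ∑ l : Fin k1, (t.1.2.2.1 u (Fin.natAdd k0 l) : ℝ) / 2 ^ X *
      (((tq J w X t.1.2.1 : ℕ) : ℝ) * ((v.2.2.1 l : ℝ) / 2 ^ X)) :=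
    Finset.sum_congr rfl fun l _ => by ring
  rw [e]
  field_simp
  ring

/-- The leaf. -/
theorem tq5_la (t : TT D.Γ c k0 k1 × Prop) (v : VT D.Γ c k0 k1) :
    (tq5 D J w z i j r X C P S ys gs q E).la X t v = (fR J w X t.1 v).1 := by
  funext l
  unfold TQ.la fR laR
  change ⌊(v.2.1 (Fin.natAdd k0 l) : ℝ) + ((tq J w X t.1.2.1 : ℤ) / 2 ^ X : ℝ) * v.2.2.1 l -
    ∑ a : Fin k0, (t.1.2.2.2.1 l a : ℝ) / 2 ^ X * v.2.1 (Fin.castAdd k1 a)⌋ = _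
  congr 1
  rw [Int.cast_natCast]
  ring

/-- The velocity leaf. -/
theorem tq5_wv (t : TT D.Γ c k0 k1 × Prop) (v : VT D.Γ c k0 k1) :
    (tq5 D J w z i j r X C P S ys gs q E).wv X t v = (fR J w X t.1 v).2 := by
  funext u
  unfold TQ.wv fR wR
  change ⌊(v.2.2.2.1 u : ℝ) + 2 * ((tq J w X t.1.2.1 : ℤ) / 2 ^ X : ℝ) * v.2.2.2.2 u -
    ∑ a : Fin k0, (t.1.2.2.2.2 u a : ℝ) / 2 ^ X * v.2.1 (Fin.castAdd k1 a) -
    ∑ l : Fin k1, (t.1.2.2.1 u (Fin.natAdd k0 l) : ℝ) / 2 ^ X * v.2.2.1 l⌋ = _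
  congr 1
  rw [Int.cast_natCast]
  ring

/-! ### Bounds -/

/-- The geometric fields of `TQ.Ok`. -/
structure TGeo (Q : TQ c k0 k1) (X : ℕ) (C : ℝ) : Prop where
  tm_r : ∀ ω, 0 ≤ Q.tm (Q.th ω) ∧ Q.tm (Q.th ω) < 2 ^ X
  y_r : ∀ ω j, 0 ≤ Q.y (Q.v ω) j ∧ Q.y (Q.v ω) j < 2 ^ X
  l_r : ∀ ω j, 0 ≤ Q.l0 (Q.v ω) j ∧ Q.l0 (Q.v ω) j < 2 ^ X
  m_b : ∀ ω j, |(Q.m (Q.v ω) j : ℝ)| ≤ C * 2 ^ X
  b1_b : ∀ ω i, |(Q.b1 (Q.v ω) i : ℝ)| ≤ C * 2 ^ X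
  b2_b : ∀ ω i, |(Q.b2 (Q.v ω) i : ℝ)| ≤ C * 2 ^ X
  a_b : ∀ ω u i, |Q.a (Q.th ω) u i| ≤ C
  cc_b : ∀ ω u i, |Q.cc (Q.th ω) u i| ≤ C
  El_b : ∀ ω ω' i r u, |Q.cc (Q.th ω) r i| * |Q.El (Q.th ω') r u| ≤ C
  Ev_b : ∀ ω u i, |Q.Ev (Q.th ω) u i| ≤ C
  hgt_b : ∀ ω i, |(Q.hgt ω i : ℝ)| ≤ C * 2 ^ X
  g_eq : ∀ ω ω' i, |(Q.g (Q.th ω) (Q.v ω') i : ℝ) - Q.gf X (Q.th ω) (Q.v ω') i| ≤ C

theorem mul_bd {a b A B : ℝ} (ha : |a| ≤ A) (hb : |b| ≤ B) : |a * b| ≤ A * B := by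
  rw [abs_mul]
  exact mul_le_mul ha hb (abs_nonneg _) ((abs_nonneg _).trans ha)

theorem sum_bd_g {k : ℕ} {f : Fin k → ℝ} {A : ℝ} (h : ∀ a, |f a| ≤ A) : |∑ a, f a| ≤ k * A := by
  refine (Finset.abs_sum_le_sum_abs _ _).trans ((Finset.sum_le_sum fun a _ => h a).trans
    (le_of_eq ?_))
  rw [Finset.sum_const, nsmul_eq_mul, Finset.card_univ, Fintype.card_fin]

/-- The height is bounded. -/
theorem hR_bd (ω ω' : D.Ω) (u : Fin c) :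
    |hR J w X (tv (k0 := k0) (k1 := k1) D J w z i j r X C S ys gs ω)
      (vv D J w z i j r X C P ys gs ω') u| ≤ (2 + 2 * ((k0 : ℝ) + k1) + k1) * 2 ^ X := by
  have hX : (0 : ℝ) < 2 ^ X := by positivity
  have ht : |((tq J w X (D.T ω) : ℕ) : ℝ)| ≤ 2 ^ X := by
    rw [abs_of_nonneg (Nat.cast_nonneg _)]
    exact_mod_cast (tq_lt J w X (D.T ω)).le
  have h1 : |((tq J w X (D.T ω) : ℕ) : ℝ) * ((bev D J w z i j r X C P gs ω' u : ℝ) / 2 ^ X)| ≤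
      2 ^ X * 1 := mul_bd ht (div_bd (dg_bd _ _))
  have h2 : |((tq J w X (D.T ω) : ℕ) : ℝ) ^ 2 / 2 ^ X *
      ((be2v D J w z i j r X C P gs ω' u : ℝ) / 2 ^ X)| ≤ 2 ^ X * 1 := by
    refine mul_bd ?_ (div_bd (dg_bd _ _))
    rw [abs_div, abs_of_pos hX, div_le_iff₀ hX, abs_pow, pow_two]
    exact mul_le_mul ht ht (abs_nonneg _) hX.le
  have h3 : |∑ a, (Sv D z X C S ys gs ω u a : ℝ) / 2 ^ X * (yv D J w z i j r X C P ys ω' a : ℝ)| ≤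
      ((k0 + k1 : ℕ) : ℝ) * (1 * 2 ^ X) := by
    refine sum_bd_g fun a => mul_bd (div_bd (dg_bd _ _)) ?_
    obtain ⟨e2, e3⟩ := dgp_bd X ((z0 D J w i j r P ω' (ys a) + Ry z C) / (2 * Ry z C))
    have f2 : (0 : ℝ) ≤ (yv D J w z i j r X C P ys ω' a : ℝ) := by exact_mod_cast e2
    have f3 : (yv D J w z i j r X C P ys ω' a : ℝ) ≤ 2 ^ X := by exact_mod_cast e3.le
    rw [abs_of_nonneg f2]
    exact f3
  have h4 : |∑ l : Fin k1, (Sv D z X C S ys gs ω u (Fin.natAdd k0 l) : ℝ) / 2 ^ X *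
      (((tq J w X (D.T ω) : ℕ) : ℝ) * ((mv D J w z i j r X C P ys ω' l : ℝ) / 2 ^ X))| ≤
      (k1 : ℝ) * (1 * (2 ^ X * 1)) :=
    sum_bd_g fun l => mul_bd (div_bd (dg_bd _ _)) (mul_bd ht (div_bd (dg_bd _ _)))
  have h5 : |∑ a, (Sv (k0 := k0) (k1 := k1) D z X C S ys gs ω u a : ℝ) / 2| ≤
      ((k0 + k1 : ℕ) : ℝ) * (2 ^ X) := by
    refine sum_bd_g fun a => ?_
    rw [abs_div, abs_of_pos (by norm_num : (0 : ℝ) < 2), div_le_iff₀ (by norm_num)]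
    have e1 : |(Sv D z X C S ys gs ω u a : ℝ)| ≤ 2 ^ X := dg_bd _ _
    linarith
  unfold hR
  change |((tq J w X (D.T ω) : ℕ) : ℝ) * ((bev D J w z i j r X C P gs ω' u : ℝ) / 2 ^ X) +
    ((tq J w X (D.T ω) : ℕ) : ℝ) ^ 2 / 2 ^ X * ((be2v D J w z i j r X C P gs ω' u : ℝ) / 2 ^ X) -
    ∑ a, (Sv D z X C S ys gs ω u a : ℝ) / 2 ^ X * (yv D J w z i j r X C P ys ω' a : ℝ) -
    ∑ l : Fin k1, (Sv D z X C S ys gs ω u (Fin.natAdd k0 l) : ℝ) / 2 ^ X *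
      (((tq J w X (D.T ω) : ℕ) : ℝ) * ((mv D J w z i j r X C P ys ω' l : ℝ) / 2 ^ X)) +
    ∑ a, (Sv (k0 := k0) (k1 := k1) D z X C S ys gs ω u a : ℝ) / 2| ≤ _
  rw [abs_le] at h1 h2 h3 h4 h5
  have hk : (((k0 + k1 : ℕ) : ℝ)) = (k0 : ℝ) + k1 := by push_cast; rfl
  rw [hk] at h3 h5
  rw [abs_le]
  constructor <;> nlinarith [h1.1, h1.2, h2.1, h2.2, h3.1, h3.2, h4.1, h4.2, h5.1, h5.2]

theorem dg_le (X : ℕ) (x : ℝ) : |(dg X x : ℝ)| ≤ 2 ^ X * |x| + 1 := by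
  have hX : (0 : ℝ) < 2 ^ X := by positivity
  have h1 : |cl1 x| ≤ |x| := by
    unfold cl1
    rcases le_total x 1 with h2 | h2
    · rw [min_eq_right h2]
      rcases le_total (-1) x with h3 | h3
      · rw [max_eq_right h3]
      · rw [max_eq_left h3, abs_neg, abs_one, abs_of_nonpos (by linarith)]
        linarith
    · rw [min_eq_left h2, max_eq_right (by norm_num), abs_one, abs_of_nonneg (by linarith)]
      exact h2
  have h2 := Int.floor_le (2 ^ X * cl1 x)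
  have h3 := Int.lt_floor_add_one (2 ^ X * cl1 x)
  have h4 := abs_le.1 h1
  unfold dg
  have h5 := mul_le_mul_of_nonneg_left h4.1 hX.le
  have h6 := mul_le_mul_of_nonneg_left h4.2 hX.le
  rw [abs_le]
  constructor <;> linarith

/-- **The geometric fields.** -/
theorem tq5_geo (hC : 0 ≤ C) (hX : exp (C * z) ≤ 2 ^ X)
    (bS : ∀ ω u k, |S.S ω u k| ≤ exp (C * z)) (bEl : ∀ ω u k, |S.El ω u k| ≤ exp (C * z)) :
    TGeo (tq5 D J w z i j r X C P S ys gs q E) X (3 * ((k0 : ℝ) + k1) + 6) := by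
  have h2X : (0 : ℝ) < 2 ^ X := by positivity
  have h1X : (1 : ℝ) ≤ 2 ^ X := one_le_pow₀ (by norm_num)
  have hk0 : (0 : ℝ) ≤ k0 := Nat.cast_nonneg _
  have hk1 : (0 : ℝ) ≤ k1 := Nat.cast_nonneg _
  have hc1 : (1 : ℝ) ≤ 3 * ((k0 : ℝ) + k1) + 6 := by linarith
  have hb : ∀ x : ℝ, |(dg X x : ℝ)| ≤ (3 * ((k0 : ℝ) + k1) + 6) * 2 ^ X := fun x =>
    (dg_bd X x).trans (le_mul_of_one_le_left h2X.le hc1)
  have hd : ∀ x : ℝ, |(dg X x : ℝ) / 2 ^ X| ≤ 3 * ((k0 : ℝ) + k1) + 6 := fun x =>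
    (div_bd (dg_bd X x)).trans hc1
  constructor
  · intro ω
    have h1 : ((tq J w X (D.T ω) : ℕ) : ℤ) < 2 ^ X := by exact_mod_cast tq_lt J w X (D.T ω)
    exact ⟨Int.natCast_nonneg _, h1⟩
  · intro ω a
    exact dgp_bd X _
  · intro ω a
    exact dgp_bd X _
  · intro ω a
    exact hb _
  · intro ω a
    exact hb _
  · intro ω a
    exact hb _
  · intro ω a l
    exact hd _
  · intro ω a l
    exact hd _
  · intro ω ω' u l a
    change |(dg X (S.S ω (gs u) (ys (Fin.natAdd k0 l)) * (2 * Ry z C) / Rg z C) : ℝ) / 2 ^ X| *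
      |((⌊2 ^ X * S.El ω' (ys (Fin.natAdd k0 l)) (ys (Fin.castAdd k1 a))⌋ : ℤ) : ℝ) / 2 ^ X| ≤ _
    set e : ℝ := exp (C * z) with he
    have he1 : 1 ≤ e := Real.one_le_exp (by positivity)
    have he0 : 0 < e := by linarith
    have a1 : |S.S ω (gs u) (ys (Fin.natAdd k0 l)) * (2 * Ry z C) / Rg z C| ≤ 1 / e := by
      have e3 : Rg z C = 2 * (e * e * e) := by
        unfold Rg
        rw [he, ← Real.exp_add, ← Real.exp_add]
        congr 2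
        ring
      have e4 : Ry z C = e := rfl
      rw [e3, e4, abs_div, abs_mul, abs_of_pos (show (0 : ℝ) < 2 * e by positivity),
        abs_of_pos (show (0 : ℝ) < 2 * (e * e * e) by positivity), div_le_div_iff₀ (by positivity)
        he0]
      have e5 := bS ω (gs u) (ys (Fin.natAdd k0 l))
      nlinarith [mul_le_mul_of_nonneg_right e5 (show (0 : ℝ) ≤ 2 * e * e by positivity)]
    have a2 : |(dg X (S.S ω (gs u) (ys (Fin.natAdd k0 l)) * (2 * Ry z C) / Rg z C) : ℝ) / 2 ^ X| ≤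
        1 / e + 1 / 2 ^ X := by
      rw [abs_div, abs_of_pos h2X, div_le_iff₀ h2X, add_mul, one_div_mul_cancel h2X.ne']
      refine (dg_le X _).trans ?_
      have := mul_le_mul_of_nonneg_left a1 h2X.le
      linarith
    have a3 : |((⌊2 ^ X * S.El ω' (ys (Fin.natAdd k0 l)) (ys (Fin.castAdd k1 a))⌋ : ℤ) : ℝ) /
        2 ^ X| ≤ e + 1 / 2 ^ X := by
      rw [abs_div, abs_of_pos h2X, div_le_iff₀ h2X, add_mul, one_div_mul_cancel h2X.ne']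
      have e5 := abs_le.1 (bEl ω' (ys (Fin.natAdd k0 l)) (ys (Fin.castAdd k1 a)))
      have f1 := Int.floor_le (2 ^ X * S.El ω' (ys (Fin.natAdd k0 l)) (ys (Fin.castAdd k1 a)))
      have f2 := Int.lt_floor_add_one
        (2 ^ X * S.El ω' (ys (Fin.natAdd k0 l)) (ys (Fin.castAdd k1 a)))
      have g1 := mul_le_mul_of_nonneg_left e5.1 h2X.le
      have g2 := mul_le_mul_of_nonneg_left e5.2 h2X.le
      rw [abs_le]
      constructor <;> nlinarith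
    refine (mul_le_mul a2 a3 (abs_nonneg _) (by positivity)).trans ?_
    have b1 : 1 / e ≤ 1 := by
      rw [div_le_one he0]
      exact he1
    have b2 : 1 / (2 : ℝ) ^ X ≤ 1 := by
      rw [div_le_one h2X]
      exact h1X
    have b3 : 1 / (2 : ℝ) ^ X * e ≤ 1 := by
      rw [one_div_mul_eq_div, div_le_one h2X]
      exact hX
    have b4 : 1 / e * e = 1 := one_div_mul_cancel he0.ne'
    have b5 : (0 : ℝ) < 1 / 2 ^ X := by positivity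
    have b6 : (0 : ℝ) < 1 / e := by positivity
    have b7 : 1 / e * (1 / 2 ^ X) ≤ 1 := by nlinarith
    have b8 : 1 / (2 : ℝ) ^ X * (1 / 2 ^ X) ≤ 1 := by nlinarith
    have b9 : (1 / e + 1 / 2 ^ X) * (e + 1 / 2 ^ X) = 1 / e * e + 1 / e * (1 / 2 ^ X) +
      1 / (2 : ℝ) ^ X * e + 1 / (2 : ℝ) ^ X * (1 / 2 ^ X) := by ring
    rw [b9]
    linarith
  · intro ω a l
    exact hd _
  · intro ω u
    have a1 : |((nuv D J w z i j r X C P gs ω u : ℤ) : ℝ)| ≤ 2 ^ X := dg_bd _ _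
    have a2 := hR_bd (k0 := k0) (k1 := k1) D J w z i j r X C P S ys gs ω ω u
    change |((nuv D J w z i j r X C P gs ω u + ⌊hR J w X
      (tv (k0 := k0) (k1 := k1) D J w z i j r X C S ys gs ω)
      (vv D J w z i j r X C P ys gs ω) u⌋ : ℤ) : ℝ)| ≤ _
    have f1 := Int.floor_le (hR J w X (tv (k0 := k0) (k1 := k1) D J w z i j r X C S ys gs ω)
      (vv D J w z i j r X C P ys gs ω) u)
    have f2 := Int.lt_floor_add_one (hR J w X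
      (tv (k0 := k0) (k1 := k1) D J w z i j r X C S ys gs ω) (vv D J w z i j r X C P ys gs ω) u)
    rw [abs_le] at a1 a2
    push_cast
    rw [abs_le]
    constructor <;> nlinarith [a1.1, a1.2, a2.1, a2.2]
  · intro ω ω' u
    have e0 := tq5_gf D J w z i j r X C P S ys gs q E
      (tv (k0 := k0) (k1 := k1) D J w z i j r X C S ys gs ω, E ω)
      (vv D J w z i j r X C P ys gs ω') u
    change |((⌊hR J w X (tv (k0 := k0) (k1 := k1) D J w z i j r X C S ys gs ω)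
      (vv D J w z i j r X C P ys gs ω') u⌋ : ℤ) : ℝ) -
      (tq5 D J w z i j r X C P S ys gs q E).gf X
      (tv (k0 := k0) (k1 := k1) D J w z i j r X C S ys gs ω, E ω)
      (vv D J w z i j r X C P ys gs ω') u| ≤ _
    rw [e0]
    change |((⌊hR J w X (tv (k0 := k0) (k1 := k1) D J w z i j r X C S ys gs ω)
      (vv D J w z i j r X C P ys gs ω') u⌋ : ℤ) : ℝ) -
      hR J w X (tv (k0 := k0) (k1 := k1) D J w z i j r X C S ys gs ω)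
      (vv D J w z i j r X C P ys gs ω') u| ≤ _
    have f1 := Int.floor_le (hR J w X (tv (k0 := k0) (k1 := k1) D J w z i j r X C S ys gs ω)
      (vv D J w z i j r X C P ys gs ω') u)
    have f2 := Int.lt_floor_add_one (hR J w X
      (tv (k0 := k0) (k1 := k1) D J w z i j r X C S ys gs ω) (vv D J w z i j r X C P ys gs ω') u)
    rw [abs_le]
    constructor <;> linarith

end

end Pool.P5
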